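import Mathlib

namespace Pool.Agent.N427.MM

open Module

variable {I : Type} [Fintype I]

/-- A separated set in a subspace of positive dimension. -/
theorem net (R : Submodule ℝ (EuclideanSpace ℝ I)) (hR : 1 ≤ finrank ℝ R) {μ : ℝ}
    (hμ : 1 ≤ μ) : ∃ G : Finset (EuclideanSpace ℝ I),
      (∀ s ∈ G, s ∈ R ∧ 1 ≤ ‖s‖ ∧ ‖s‖ ≤ 3 * Fintype.card I) ∧
      (∀ s ∈ G, ∀ t ∈ G, s ≠ t → 1 / μ ≤ ‖s - t‖) ∧ μ ^ finrank ℝ R ≤ (G.card : ℝ) := by
  classical
  have hμ0 : 0 < μ := by linarith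
  obtain ⟨j, hj⟩ : ∃ j, j = finrank ℝ R := ⟨_, rfl⟩
  set b := stdOrthonormalBasis ℝ R with hb
  set c : (Fin (finrank ℝ R) → Fin ⌈μ⌉₊) → (Fin (finrank ℝ R)) → ℝ :=
    fun u l => 1 + (u l : ℕ) / μ with hc
  set f : (Fin (finrank ℝ R) → Fin ⌈μ⌉₊) → R := fun u => ∑ l, c u l • b l with hf
  have hrep : ∀ u l, b.repr (f u) l = c u l := by
    intro u l
    simp only [hf]
    rw [b.repr_apply_apply, b.orthonormal.inner_right_fintype]
  have hlow : ∀ v : R, ∀ l, |b.repr v l| ≤ ‖(v : EuclideanSpace ℝ I)‖ := by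
    intro v l
    have h1 := PiLp.norm_apply_le (b.repr v) l
    rw [b.repr.norm_map] at h1
    exact h1
  have hc1 : ∀ u l, 1 ≤ c u l := by
    intro u l
    simp only [hc]
    have : (0 : ℝ) ≤ (u l : ℕ) / μ := by positivity
    linarith
  have hc2 : ∀ u l, c u l ≤ 3 := by
    intro u l
    simp only [hc]
    have h1 : (((u l : Fin ⌈μ⌉₊) : ℕ) : ℝ) ≤ ⌈μ⌉₊ := by exact_mod_cast (u l).2.le
    have h2 := Nat.ceil_lt_add_one hμ0.le
    have h3 : (((u l : Fin ⌈μ⌉₊) : ℕ) : ℝ) / μ ≤ 2 := by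
      rw [div_le_iff₀ hμ0]
      linarith
    linarith
  have hsep : ∀ u v, u ≠ v →
      1 / μ ≤ ‖((f u : EuclideanSpace ℝ I) - (f v : EuclideanSpace ℝ I))‖ := by
    intro u v huv
    obtain ⟨l, hl⟩ := Function.ne_iff.1 huv
    have h1 := hlow (f u - f v) l
    rw [map_sub] at h1
    rw [PiLp.sub_apply, hrep, hrep] at h1
    refine le_trans ?_ h1
    simp only [hc]
    have h2 : (1 : ℝ) + ((u l : ℕ) : ℝ) / μ - (1 + ((v l : ℕ) : ℝ) / μ) =
      (((u l : ℕ) : ℝ) - ((v l : ℕ) : ℝ)) / μ := by ring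
    rw [h2, abs_div, abs_of_pos hμ0]
    gcongr
    have h3 : ((u l : ℕ) : ℤ) - ((v l : ℕ) : ℤ) ≠ 0 := by
      intro h0
      apply hl
      apply Fin.ext
      omega
    have h4 := Int.one_le_abs h3
    have h5 : ((1 : ℤ) : ℝ) ≤ ((|((u l : ℕ) : ℤ) - ((v l : ℕ) : ℤ)| : ℤ) : ℝ) := by
      exact_mod_cast h4
    push_cast at h5
    exact h5
  refine ⟨Finset.univ.image fun u => (f u : EuclideanSpace ℝ I), ?_, ?_, ?_⟩
  · intro s hs
    rw [Finset.mem_image] at hs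
    obtain ⟨u, -, rfl⟩ := hs
    refine ⟨(f u).2, ?_, ?_⟩
    · have h1 := hlow (f u) ⟨0, hR⟩
      rw [hrep] at h1
      exact (hc1 u _).trans ((le_abs_self _).trans h1)
    · have h1 : ‖f u‖ ≤ ∑ l, ‖c u l • b l‖ := norm_sum_le _ _
      have h2 : ∀ l, ‖c u l • b l‖ ≤ 3 := by
        intro l
        rw [norm_smul, b.orthonormal.1 l, mul_one, Real.norm_of_nonneg (by linarith [hc1 u l])]
        exact hc2 u l
      have h3 : ‖f u‖ ≤ finrank ℝ R * 3 := by
        refine h1.trans ((Finset.sum_le_sum fun l _ => h2 l).trans ?_)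
        rw [Finset.sum_const, Finset.card_univ, Fintype.card_fin, nsmul_eq_mul]
      have h4 : finrank ℝ R ≤ Fintype.card I := by
        have := Submodule.finrank_le R
        rwa [finrank_euclideanSpace] at this
      have h5 : (finrank ℝ R : ℝ) ≤ Fintype.card I := by exact_mod_cast h4
      rw [Submodule.coe_norm] at h3
      linarith
  · intro s hs t ht hst
    rw [Finset.mem_image] at hs ht
    obtain ⟨u, -, rfl⟩ := hs
    obtain ⟨v, -, rfl⟩ := ht
    apply hsep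
    rintro rfl
    exact hst rfl
  · rw [Finset.card_image_of_injective]
    · rw [Finset.card_univ, Fintype.card_fun, Fintype.card_fin, Fintype.card_fin]
      push_cast
      gcongr
      exact Nat.le_ceil μ
    · intro u v huv
      by_contra hne
      have h1 := hsep u v hne
      simp only at huv
      rw [huv, sub_self, norm_zero] at h1
      have : 0 < 1 / μ := by positivity
      linarith

theorem norm_le_sum (x : EuclideanSpace ℝ I) : ‖x‖ ≤ ∑ i, |x i| := by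
  rw [EuclideanSpace.norm_eq, Real.sqrt_le_iff]
  refine ⟨Finset.sum_nonneg fun i _ => abs_nonneg _, ?_⟩
  have h : ∀ T : Finset I, ∑ i ∈ T, ‖x i‖ ^ 2 ≤ (∑ i ∈ T, |x i|) ^ 2 := by
    classical
    intro T
    induction T using Finset.induction_on with
    | empty => simp
    | insert a T ha ih =>
      rw [Finset.sum_insert ha, Finset.sum_insert ha, Real.norm_eq_abs]
      have h1 : 0 ≤ ∑ i ∈ T, |x i| := Finset.sum_nonneg fun i _ => abs_nonneg _
      have h2 := abs_nonneg (x a)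
      nlinarith [mul_nonneg h1 h2]
  exact h _

/-- the cell of a point -/
noncomputable def cell (μ : ℝ) (s : EuclideanSpace ℝ I) (i : I) : ℤ :=
  ⌊2 * (Fintype.card I : ℝ) * μ * s i⌋

theorem cell_close {μ : ℝ} (hμ : 1 ≤ μ) {s t : EuclideanSpace ℝ I} (h : cell μ s = cell μ t) :
    ‖s - t‖ ≤ 1 / (2 * μ) := by
  have hμ0 : 0 < μ := by linarith
  refine (norm_le_sum _).trans ?_
  have h1 : ∀ i : I, |(s - t) i| ≤ 1 / (2 * (Fintype.card I : ℝ) * μ) := by
    intro i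
    have hd : (0 : ℝ) < Fintype.card I := by exact_mod_cast Fintype.card_pos_iff.2 ⟨i⟩
    have h2 := congrFun h i
    simp only [cell] at h2
    have h3 := Int.abs_sub_lt_one_of_floor_eq_floor h2
    rw [← mul_sub, abs_mul, abs_of_pos (by positivity)] at h3
    rw [PiLp.sub_apply, le_div_iff₀ (by positivity), mul_comm]
    exact h3.le
  refine (Finset.sum_le_sum fun i _ => h1 i).trans ?_
  rw [Finset.sum_const, Finset.card_univ, nsmul_eq_mul]
  rcases Nat.eq_zero_or_pos (Fintype.card I) with hd | hd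
  · rw [hd, Nat.cast_zero, zero_mul]
    positivity
  · have hd' : (0 : ℝ) < Fintype.card I := by exact_mod_cast hd
    apply le_of_eq
    field_simp

theorem cell_bound (I : Type) [Fintype I] : ∃ C : ℝ, 1 ≤ C ∧
  ∀ (β : Type) (Z : Finset β) (S : β → Submodule ℝ (EuclideanSpace ℝ I)) (μ Q : ℝ),
    1 ≤ μ → 0 ≤ Q → (∀ b ∈ Z, 1 ≤ finrank ℝ (S b)) →
    (∀ (s₀ : EuclideanSpace ℝ I) (Y : Finset β), 1 ≤ ‖s₀‖ → ‖s₀‖ ≤ 3 * Fintype.card I →
      (∀ b ∈ Y, b ∈ Z ∧ ∃ s ∈ S b, 1 ≤ ‖s‖ ∧ ‖s‖ ≤ 3 * Fintype.card I ∧ ‖s - s₀‖ ≤ 1 / μ) →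
      (Y.card : ℝ) ≤ Q) →
    ∑ b ∈ Z, μ ^ finrank ℝ (S b) ≤ C * μ ^ Fintype.card I * Q := by
  classical
  obtain ⟨d, hd⟩ : ∃ d, d = Fintype.card I := ⟨_, rfl⟩
  refine ⟨(12 * (d : ℝ) ^ 2 + 5) ^ d, one_le_pow₀ (by nlinarith [sq_nonneg (d : ℝ)]), ?_⟩
  intro β Z S μ Q hμ hQ hS hY
  have hμ0 : 0 < μ := by linarith
  have hG : ∀ b, ∃ G : Finset (EuclideanSpace ℝ I), b ∈ Z →
      (∀ s ∈ G, s ∈ S b ∧ 1 ≤ ‖s‖ ∧ ‖s‖ ≤ 3 * Fintype.card I) ∧
      (∀ s ∈ G, ∀ t ∈ G, s ≠ t → 1 / μ ≤ ‖s - t‖) ∧ μ ^ finrank ℝ (S b) ≤ (G.card : ℝ) := by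
    intro b
    by_cases hb : b ∈ Z
    · obtain ⟨G, h⟩ := net (S b) (hS b hb) hμ
      exact ⟨G, fun _ => h⟩
    · exact ⟨∅, fun h => absurd h hb⟩
  choose G hG using hG
  set B : ℤ := ⌈6 * (d : ℝ) ^ 2 * μ⌉ + 1 with hB
  have hB0 : (0 : ℝ) ≤ 6 * (d : ℝ) ^ 2 * μ := by positivity
  have hBpos : 0 ≤ B := by
    have := Int.ceil_nonneg hB0
    omega
  set X : Finset (I → ℤ) := Fintype.piFinset fun _ => Finset.Icc (-B) B with hX
  have hXc : (X.card : ℝ) ≤ (12 * (d : ℝ) ^ 2 + 5) ^ d * μ ^ d := by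
    rw [hX, Fintype.card_piFinset, Finset.prod_const, Finset.card_univ, ← hd, Nat.cast_pow,
      ← mul_pow]
    refine pow_le_pow_left₀ (by positivity) ?_ _
    rw [Int.card_Icc]
    have h1 : (((B + 1 - -B).toNat : ℕ) : ℝ) = ((B + 1 - -B : ℤ) : ℝ) := by
      have : (((B + 1 - -B).toNat : ℕ) : ℤ) = B + 1 - -B := Int.toNat_of_nonneg (by omega)
      exact_mod_cast this
    rw [h1, hB]
    push_cast
    have h2 := Int.ceil_lt_add_one (6 * (d : ℝ) ^ 2 * μ)
    nlinarith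
  have hmem : ∀ b ∈ Z, ∀ s ∈ G b, cell μ s ∈ X := by
    intro b hb s hs
    rw [hX, Fintype.mem_piFinset]
    intro i
    have h1 := (hG b hb).1 s hs
    have h2 : |s i| ≤ 3 * d := by
      have := PiLp.norm_apply_le s i
      rw [Real.norm_eq_abs] at this
      rw [hd]
      exact this.trans h1.2.2
    have h3 : |2 * (d : ℝ) * μ * s i| ≤ 6 * (d : ℝ) ^ 2 * μ := by
      rw [abs_mul, abs_of_nonneg (by positivity : (0 : ℝ) ≤ 2 * d * μ)]
      calc 2 * (d : ℝ) * μ * |s i| ≤ 2 * (d : ℝ) * μ * (3 * d) := by gcongr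
        _ = 6 * (d : ℝ) ^ 2 * μ := by ring
    have h4 := abs_le.1 h3
    have h5 := Int.le_ceil (6 * (d : ℝ) ^ 2 * μ)
    rw [Finset.mem_Icc]
    unfold cell
    rw [← hd]
    constructor
    · rw [Int.le_floor, hB]
      push_cast
      linarith
    · have h6 : (⌊2 * (d : ℝ) * μ * s i⌋ : ℝ) ≤ (B : ℝ) := by
        refine (Int.floor_le _).trans ?_
        rw [hB]
        push_cast
        linarith
      exact_mod_cast h6
  have hinj : ∀ b ∈ Z, Set.InjOn (cell μ) (G b : Set (EuclideanSpace ℝ I)) := by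
    intro b hb s hs t ht hst
    by_contra hne
    have h1 := (hG b hb).2.1 s hs t ht hne
    have h2 := cell_close hμ hst
    have h3 : 1 / (2 * μ) < 1 / μ := by
      rw [div_lt_div_iff₀ (by positivity) hμ0]
      linarith
    linarith
  have hcell : ∀ x ∈ X, (((Z.filter fun b => x ∈ (G b).image (cell μ)).card : ℕ) : ℝ) ≤ Q := by
    intro x _
    rcases (Z.filter fun b => x ∈ (G b).image (cell μ)).eq_empty_or_nonempty with h | ⟨b₀, hb₀⟩
    · rw [h, Finset.card_empty, Nat.cast_zero]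
      exact hQ
    · rw [Finset.mem_filter, Finset.mem_image] at hb₀
      obtain ⟨hb₀, s₀, hs₀, hc₀⟩ := hb₀
      have h1 := (hG b₀ hb₀).1 s₀ hs₀
      refine hY s₀ _ h1.2.1 h1.2.2 ?_
      intro b hb
      rw [Finset.mem_filter, Finset.mem_image] at hb
      obtain ⟨hb, s, hs, hc⟩ := hb
      have h2 := (hG b hb).1 s hs
      refine ⟨hb, s, h2.1, h2.2.1, h2.2.2, ?_⟩
      refine (cell_close hμ (hc.trans hc₀.symm)).trans ?_
      rw [div_le_div_iff₀ (by positivity) hμ0]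
      linarith
  calc ∑ b ∈ Z, μ ^ finrank ℝ (S b) ≤ ∑ b ∈ Z, ((G b).card : ℝ) :=
        Finset.sum_le_sum fun b hb => (hG b hb).2.2
    _ = ∑ b ∈ Z, ∑ x ∈ X, (if x ∈ (G b).image (cell μ) then (1 : ℝ) else 0) := by
        refine Finset.sum_congr rfl fun b hb => ?_
        rw [← Finset.sum_filter, Finset.sum_const, nsmul_eq_mul, mul_one,
          ← Finset.card_image_of_injOn (hinj b hb)]
        congr 2
        ext x
        rw [Finset.mem_filter]
        refine ⟨fun h => ⟨?_, h⟩, fun h => h.2⟩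
        rw [Finset.mem_image] at h
        obtain ⟨s, hs, rfl⟩ := h
        exact hmem b hb s hs
    _ = ∑ x ∈ X, (((Z.filter fun b => x ∈ (G b).image (cell μ)).card : ℕ) : ℝ) := by
        rw [Finset.sum_comm]
        refine Finset.sum_congr rfl fun x _ => ?_
        rw [← Finset.sum_filter, Finset.sum_const, nsmul_eq_mul, mul_one]
    _ ≤ ∑ x ∈ X, Q := Finset.sum_le_sum hcell
    _ = (X.card : ℝ) * Q := by rw [Finset.sum_const, nsmul_eq_mul]
    _ ≤ (12 * (d : ℝ) ^ 2 + 5) ^ d * μ ^ d * Q := by gcongr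
    _ = (12 * (d : ℝ) ^ 2 + 5) ^ d * μ ^ Fintype.card I * Q := by rw [hd]

end Pool.Agent.N427.MM
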