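import Pool.Agent.N427.MM.Cell
import Pool.Agent.N852.MM.Stm

/-!
Project MM: part A, nets and cells.
-/

namespace Pool.Agent.N427.MM

theorem cellP : Pool.Agent.N852.MM.CellP := fun I _ => cell_bound I

end Pool.Agent.N427.MM
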